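import Pool.Agent.X175.HP.Time

namespace Pool.Agent.Results.MP_9c2350_lc.PositiveHurwitzProduct

open Pool.Agent.X175.HP

/-- A polynomial-time algorithm for positive Hurwitz products. For every family `A` of `m ≥ 1`
rational `n × n` matrices (`n ≥ 1`) the program `algorithm` uses at most
`15360 * (inputSize A) ^ 9` steps. If the matrices are nonnegative and the family is `m`-primitive,
then its output is a colour vector of length at least one with positive Hurwitz product. The output
is given by the closed formula `colour A`, and its entries are at most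
`(n + m) ^ (3 (n + m) + 11)`. -/
theorem result (n m : ℕ) (hn : 1 ≤ n) (hm : 1 ≤ m) (A : Fin m → Matrix (Fin n) (Fin n) ℚ) :
    (algorithm A).time ≤ 15360 * inputSize A ^ 9 ∧
    ((∀ k i j, 0 ≤ A k i j) →
      (∃ α : Fin m → ℕ, 1 ≤ ∑ k, α k ∧ ∀ i j, 0 < hurwitz A α i j) →
        1 ≤ ∑ k, (algorithm A).ret k ∧ ∀ i j, 0 < hurwitz A (algorithm A).ret i j) ∧
    (algorithm A).ret = colour A ∧
    ∀ k, (algorithm A).ret k ≤ (n + m) ^ (3 * (n + m) + 11) := by
  rw [ret_algorithm]
  refine ⟨time_algorithm hn hm A, ?_, rfl, colour_le hn hm A⟩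
  rintro hA ⟨α, hα, h⟩
  exact ⟨colour_ne_zero hn A hA α hα h, colour_pos hn A hA α hα h⟩

end Pool.Agent.Results.MP_9c2350_lc.PositiveHurwitzProduct
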